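import Pool.Agent.H773.LK.Spec3

/-!
# LK-ZAK: Floquet values of a Schwartz function on the curve
-/

set_option autoImplicit false

noncomputable section

namespace Pool.Agent.H773.LK.Zak

open MeasureTheory Filter Topology Set
open scoped ENNReal NNReal ComplexConjugate InnerProductSpace SchwartzMap FourierTransform

/-! ### Parseval -/

lemma parseval {g h : ℝ → ℂ} (hg : MemLp g 2 (volume.restrict (Ioc (0 : ℝ) 1)))
    (hh : MemLp h 2 (volume.restrict (Ioc (0 : ℝ) 1))) :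
    HasSum (fun n : ℤ => conj (∫ θ in Ioo (0 : ℝ) 1, Complex.exp (2 * Real.pi * Complex.I * n * θ) * g θ)
      * (∫ θ in Ioo (0 : ℝ) 1, Complex.exp (2 * Real.pi * Complex.I * n * θ) * h θ))
      (∫ θ in Ioo (0 : ℝ) 1, conj (g θ) * h θ) := by
  have : Fact (0 < (1 : ℝ)) := ⟨one_pos⟩
  have e0 : (0 : ℝ) + 1 = 1 := zero_add 1
  rw [← e0] at hg hh
  have Hg := hg.memLp_liftIoc.haarAddCircle
  have Hh := hh.memLp_liftIoc.haarAddCircle
  have key := (fourierBasis (T := (1 : ℝ))).hasSum_inner_mul_inner Hg.toLp Hh.toLp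
  have hc : ∀ (f : ℝ → ℂ) (hf : MemLp (AddCircle.liftIoc 1 0 f) 2 AddCircle.haarAddCircle) (n : ℤ),
      ⟪fourierBasis (T := (1 : ℝ)) n, hf.toLp⟫_ℂ
        = ∫ θ in Ioo (0 : ℝ) 1, Complex.exp (2 * Real.pi * Complex.I * ((-n : ℤ) : ℂ) * θ) * f θ := by
    intro f hf n
    rw [← HilbertBasis.repr_apply_apply, fourierBasis_repr, fourierCoeff_congr_ae hf.coeFn_toLp,
      fourierCoeff_liftIoc_eq, fourierCoeffOn_eq_integral, intervalIntegral.integral_of_le (by norm_num),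
      zero_add, ← integral_Ioc_eq_integral_Ioo]
    simp only [sub_zero, one_div, inv_one, one_smul]
    refine setIntegral_congr_fun measurableSet_Ioc fun θ _ => ?_
    simp only [smul_eq_mul]
    congr 1
    rw [fourier_coe_apply]
    congr 1
    push_cast
    ring
  have h1 : ∀ n : ℤ, ⟪Hg.toLp, fourierBasis (T := (1 : ℝ)) n⟫_ℂ
      * ⟪fourierBasis (T := (1 : ℝ)) n, Hh.toLp⟫_ℂ
      = conj (∫ θ in Ioo (0 : ℝ) 1, Complex.exp (2 * Real.pi * Complex.I * ((-n : ℤ) : ℂ) * θ) * g θ)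
      * (∫ θ in Ioo (0 : ℝ) 1, Complex.exp (2 * Real.pi * Complex.I * ((-n : ℤ) : ℂ) * θ) * h θ) := by
    intro n
    rw [hc h Hh n, ← inner_conj_symm, hc g Hg n]
  simp only [h1] at key
  have h2 : ⟪Hg.toLp, Hh.toLp⟫_ℂ = ∫ θ in Ioo (0 : ℝ) 1, conj (g θ) * h θ := by
    rw [L2.inner_def]
    have h3 : ∫ t : AddCircle (1 : ℝ), ⟪(MemLp.toLp _ Hg) t, (MemLp.toLp _ Hh) t⟫_ℂ
          ∂AddCircle.haarAddCircle
        = ∫ t : AddCircle (1 : ℝ), AddCircle.liftIoc 1 0 (fun θ => conj (g θ) * h θ) t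
          ∂AddCircle.haarAddCircle := by
      apply integral_congr_ae
      filter_upwards [Hg.coeFn_toLp, Hh.coeFn_toLp] with t h4 h5
      rw [h4, h5, RCLike.inner_apply']
      rfl
    rw [h3, AddCircle.integral_haarAddCircle, AddCircle.integral_liftIoc_eq_intervalIntegral,
      intervalIntegral.integral_of_le (by norm_num), zero_add, inv_one, one_smul,
      integral_Ioc_eq_integral_Ioo]
  rw [h2] at key
  exact (Equiv.neg ℤ).hasSum_iff.1 key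

/-! ### Bounds -/

section

variable {a : ℝ} {e₁ e₂ : Pl}

lemma Pt_cont (a : ℝ) (e₁ e₂ : Pl) : Continuous (fun p : ℝ × (ℤ × ℝ) => Pt a e₁ e₂ p.1 p.2) := by
  unfold Pt
  have h1 : Continuous (fun p : ℝ × (ℤ × ℝ) => ((p.2.1 : ℤ) : ℝ)) :=
    (continuous_of_discreteTopology (f := fun m : ℤ => (m : ℝ))).comp
      (continuous_fst.comp continuous_snd)
  have h2 : Continuous (fun p : ℝ × (ℤ × ℝ) => (((p.2.1 : ℤ) : ℝ) + p.1) / a) :=
    (h1.add continuous_fst).div_const a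
  exact (h2.smul continuous_const).add
    ((continuous_snd.comp continuous_snd).smul continuous_const)

lemma Pt_cont' (a : ℝ) (e₁ e₂ : Pl) (θ : ℝ) : Continuous (fun ξ : ℤ × ℝ => Pt a e₁ e₂ θ ξ) :=
  (Pt_cont a e₁ e₂).comp (continuous_const.prodMk continuous_id)

lemma norm_comb (h1 : ‖e₁‖ = 1) (h2 : ‖e₂‖ = 1) (h3 : ⟪e₁, e₂⟫_ℝ = 0) (u v : ℝ) :
    ‖u • e₁ + v • e₂‖ ^ 2 = u ^ 2 + v ^ 2 := by
  rw [norm_add_sq_real, norm_smul, norm_smul, inner_smul_left, inner_smul_right, h1, h2, h3]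
  simp

lemma inner_comb (h1 : ‖e₁‖ = 1) (h2 : ‖e₂‖ = 1) (h3 : ⟪e₁, e₂⟫_ℝ = 0) (u v u' v' : ℝ) :
    ⟪u • e₁ + v • e₂, u' • e₁ + v' • e₂⟫_ℝ = u * u' + v * v' := by
  have h11 : ⟪e₁, e₁⟫_ℝ = 1 := by rw [real_inner_self_eq_norm_sq, h1]; norm_num
  have h22 : ⟪e₂, e₂⟫_ℝ = 1 := by rw [real_inner_self_eq_norm_sq, h2]; norm_num
  have h21 : ⟪e₂, e₁⟫_ℝ = 0 := by rw [real_inner_comm]; exact h3
  simp only [inner_add_left, inner_add_right, inner_smul_left, inner_smul_right, h11, h22, h21, h3]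
  simp
  ring

/-- the dominating function -/
def bd (ξ : ℤ × ℝ) : ℝ := (1 + (ξ.1 : ℝ) ^ 2)⁻¹ * (1 + ξ.2 ^ 2)⁻¹

lemma summable_Z : Summable (fun m : ℤ => (1 + (m : ℝ) ^ 2)⁻¹) := by
  have h1 : Summable (fun m : ℤ => 1 / (m : ℝ) ^ 2) := Real.summable_one_div_int_pow.2 (by norm_num)
  refine Summable.of_norm_bounded_eventually h1 ?_
  have : {m : ℤ | m ≠ 0} ∈ (cofinite : Filter ℤ) := by
    rw [mem_cofinite]
    simp
  filter_upwards [this] with m hm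
  have hm' : (0 : ℝ) < (m : ℝ) ^ 2 := by
    have : (m : ℝ) ≠ 0 := by exact_mod_cast hm
    positivity
  rw [Real.norm_eq_abs, abs_of_nonneg (by positivity), one_div]
  exact inv_anti₀ hm' (by linarith)

lemma bd_int : Integrable bd mZR := by
  have h1 : Integrable (fun m : ℤ => (1 + (m : ℝ) ^ 2)⁻¹) Measure.count :=
    integrable_count_iff.2 summable_Z.norm
  have h2 : Integrable (fun η : ℝ => (1 + η ^ 2)⁻¹) := integrable_inv_one_add_sq
  exact h1.mul_prod h2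

lemma bd_nonneg (ξ : ℤ × ℝ) : 0 ≤ bd ξ := by unfold bd; positivity

lemma schwartz_bd (φ : Sc) : ∃ C : ℝ, 0 ≤ C ∧ ∀ x, (1 + ‖x‖) ^ 4 * ‖φ x‖ ≤ C := by
  refine ⟨2 ^ 4 * (Finset.Iic (4, 0)).sup (fun m => SchwartzMap.seminorm ℂ m.1 m.2) φ, by positivity, ?_⟩
  intro x
  have := SchwartzMap.one_add_le_sup_seminorm_apply (𝕜 := ℂ) (m := (4, 0)) (k := 4) (n := 0) le_rfl
    le_rfl φ x
  simpa using this

/-- uniform domination -/
lemma dom (ha : 0 < a) (h1 : ‖e₁‖ = 1) (h2 : ‖e₂‖ = 1) (h3 : ⟪e₁, e₂⟫_ℝ = 0) (φ : Sc) :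
    ∃ C : ℝ, 0 ≤ C ∧ ∀ θ ∈ Icc (0 : ℝ) 1, ∀ ξ, ‖φ (Pt a e₁ e₂ θ ξ)‖ ≤ C * bd ξ := by
  obtain ⟨C, hC0, hC⟩ := schwartz_bd φ
  refine ⟨C * (2 * (1 + a)) ^ 2, by positivity, ?_⟩
  intro θ hθ ξ
  set x := Pt a e₁ e₂ θ ξ with hx
  have hn : ‖x‖ ^ 2 = (((ξ.1 : ℝ) + θ) / a) ^ 2 + ξ.2 ^ 2 := by
    rw [hx]; unfold Pt; exact norm_comb h1 h2 h3 _ _
  have hx0 := norm_nonneg x
  have b1 : |((ξ.1 : ℝ) + θ) / a| ≤ ‖x‖ := by
    apply abs_le_of_sq_le_sq _ hx0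
    rw [hn]; nlinarith [sq_nonneg ξ.2]
  have b2 : 1 + ξ.2 ^ 2 ≤ (1 + ‖x‖) ^ 2 := by nlinarith [sq_nonneg (((ξ.1 : ℝ) + θ) / a)]
  have b3 : |(ξ.1 : ℝ)| ≤ a * ‖x‖ + 1 := by
    rw [abs_div, abs_of_pos ha, div_le_iff₀ ha] at b1
    have : |(ξ.1 : ℝ)| ≤ |(ξ.1 : ℝ) + θ| + |θ| := by
      have := abs_sub ((ξ.1 : ℝ) + θ) θ
      simpa using this
    have h4 : |θ| ≤ 1 := abs_le.2 ⟨by linarith [hθ.1], hθ.2⟩
    nlinarith
  have b4 : 1 + (ξ.1 : ℝ) ^ 2 ≤ (2 * (1 + a)) ^ 2 * (1 + ‖x‖) ^ 2 := by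
    have h5 : (ξ.1 : ℝ) ^ 2 ≤ (a * ‖x‖ + 1) ^ 2 := by
      rw [← sq_abs (ξ.1 : ℝ)]
      exact pow_le_pow_left₀ (abs_nonneg _) b3 2
    have h6 : a * ‖x‖ + 1 ≤ (1 + a) * (1 + ‖x‖) := by nlinarith
    have h7 : (a * ‖x‖ + 1) ^ 2 ≤ ((1 + a) * (1 + ‖x‖)) ^ 2 :=
      pow_le_pow_left₀ (by positivity) h6 2
    have h8 : 1 ≤ ((1 + a) * (1 + ‖x‖)) ^ 2 := by
      apply one_le_pow₀
      nlinarith
    nlinarith
  have h9 := hC x
  have h10 : 0 < (1 + (ξ.1 : ℝ) ^ 2) := by positivity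
  have h11 : 0 < (1 + ξ.2 ^ 2) := by positivity
  unfold bd
  rw [← mul_inv, ← div_eq_mul_inv, le_div_iff₀ (by positivity)]
  calc ‖φ x‖ * ((1 + (ξ.1 : ℝ) ^ 2) * (1 + ξ.2 ^ 2))
      ≤ ‖φ x‖ * (((2 * (1 + a)) ^ 2 * (1 + ‖x‖) ^ 2) * (1 + ‖x‖) ^ 2) := by gcongr
    _ = ((1 + ‖x‖) ^ 4 * ‖φ x‖) * (2 * (1 + a)) ^ 2 := by ring
    _ ≤ C * (2 * (1 + a)) ^ 2 := by gcongr

lemma slice_int (ha : 0 < a) (h1 : ‖e₁‖ = 1) (h2 : ‖e₂‖ = 1) (h3 : ⟪e₁, e₂⟫_ℝ = 0) (φ : Sc)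
    {θ : ℝ} (hθ : θ ∈ Icc (0 : ℝ) 1) : Integrable (fun ξ => φ (Pt a e₁ e₂ θ ξ)) mZR := by
  obtain ⟨C, _, hC⟩ := dom ha h1 h2 h3 φ
  exact (bd_int.const_mul C).mono' (φ.continuous.comp (Pt_cont' a e₁ e₂ θ)).aestronglyMeasurable
    (Eventually.of_forall fun ξ => hC θ hθ ξ)

end

/-- the phase -/
def ph (X y : ℝ → ℝ) (s : ℝ) (ξ : ℤ × ℝ) : ℂ :=
  Complex.exp (Complex.I * (((ξ.1 : ℝ) * X s + 2 * Real.pi * ξ.2 * y s : ℝ) : ℂ))

lemma ph_norm (X y : ℝ → ℝ) (s : ℝ) (ξ : ℤ × ℝ) : ‖ph X y s ξ‖ = 1 := by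
  unfold ph
  rw [mul_comm]
  exact Complex.norm_exp_ofReal_mul_I _

lemma ph_cont {X y : ℝ → ℝ} (hX : Continuous X) (hy : Continuous y) :
    Continuous (fun p : ℝ × (ℤ × ℝ) => ph X y p.1 p.2) := by
  unfold ph
  have h1 : Continuous (fun p : ℝ × (ℤ × ℝ) => ((p.2.1 : ℤ) : ℝ)) :=
    (continuous_of_discreteTopology (f := fun m : ℤ => (m : ℝ))).comp
      (continuous_fst.comp continuous_snd)
  have h2 : Continuous (fun p : ℝ × (ℤ × ℝ) => X p.1) := hX.comp continuous_fst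
  have h3 : Continuous (fun p : ℝ × (ℤ × ℝ) => y p.1) := hy.comp continuous_fst
  have h4 : Continuous (fun p : ℝ × (ℤ × ℝ) => p.2.2) := continuous_snd.comp continuous_snd
  fun_prop

lemma zk_eq (a : ℝ) (e₁ e₂ : Pl) (X y : ℝ → ℝ) (φ : Sc) (θ s : ℝ) :
    Zk a e₁ e₂ X y φ θ s = ∫ ξ, ph X y s ξ * 𝓕 φ (Pt a e₁ e₂ θ ξ) ∂mZR := rfl

lemma ph_cont' {X y : ℝ → ℝ} (hX : Continuous X) (hy : Continuous y) (s : ℝ) :
    Continuous (fun ξ : ℤ × ℝ => ph X y s ξ) :=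
  (ph_cont hX hy).comp (continuous_const.prodMk continuous_id)

section

variable {a : ℝ} {e₁ e₂ : Pl} {X y : ℝ → ℝ}

lemma zk_int (ha : 0 < a) (h1 : ‖e₁‖ = 1) (h2 : ‖e₂‖ = 1) (h3 : ⟪e₁, e₂⟫_ℝ = 0)
    (hX : Continuous X) (hy : Continuous y) (φ : Sc) {θ : ℝ} (hθ : θ ∈ Icc (0 : ℝ) 1) (s : ℝ) :
    Integrable (fun ξ => ph X y s ξ * 𝓕 φ (Pt a e₁ e₂ θ ξ)) mZR := by
  refine (slice_int ha h1 h2 h3 (𝓕 φ) hθ).bdd_mul (c := 1) (ph_cont' hX hy s).aestronglyMeasurable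
    (Eventually.of_forall fun ξ => (ph_norm X y s ξ).le)

lemma zk_bd (ha : 0 < a) (h1 : ‖e₁‖ = 1) (h2 : ‖e₂‖ = 1) (h3 : ⟪e₁, e₂⟫_ℝ = 0) (X y : ℝ → ℝ)
    (φ : Sc) : ∃ C : ℝ, 0 ≤ C ∧ ∀ θ ∈ Icc (0 : ℝ) 1, ∀ s, ‖Zk a e₁ e₂ X y φ θ s‖ ≤ C := by
  obtain ⟨C, hC0, hC⟩ := dom ha h1 h2 h3 (𝓕 φ)
  refine ⟨∫ ξ, C * bd ξ ∂mZR, integral_nonneg fun ξ => mul_nonneg hC0 (bd_nonneg ξ), ?_⟩
  intro θ hθ s
  rw [zk_eq]
  refine norm_integral_le_of_norm_le (bd_int.const_mul C) (Eventually.of_forall fun ξ => ?_)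
  rw [norm_mul, ph_norm, one_mul]
  exact hC θ hθ ξ

lemma zk_cont (ha : 0 < a) (h1 : ‖e₁‖ = 1) (h2 : ‖e₂‖ = 1) (h3 : ⟪e₁, e₂⟫_ℝ = 0)
    (hX : Continuous X) (hy : Continuous y) (φ : Sc) :
    ContinuousOn (Function.uncurry (Zk a e₁ e₂ X y φ)) (Icc 0 1 ×ˢ univ) := by
  obtain ⟨C, hC0, hC⟩ := dom ha h1 h2 h3 (𝓕 φ)
  have e : Function.uncurry (Zk a e₁ e₂ X y φ)
      = fun p : ℝ × ℝ => ∫ ξ, ph X y p.2 ξ * 𝓕 φ (Pt a e₁ e₂ p.1 ξ) ∂mZR := by
    funext p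
    rfl
  rw [e]
  refine continuousOn_of_dominated (bound := fun ξ => C * bd ξ) ?_ ?_ (bd_int.const_mul C) ?_
  · intro p _
    exact ((ph_cont' hX hy p.2).mul ((𝓕 φ).continuous.comp (Pt_cont' a e₁ e₂ p.1))).aestronglyMeasurable
  · intro p hp
    refine Eventually.of_forall fun ξ => ?_
    rw [norm_mul, ph_norm, one_mul]
    exact hC p.1 hp.1 ξ
  · refine Eventually.of_forall fun ξ => ?_
    have c1 : Continuous (fun p : ℝ × ℝ => ph X y p.2 ξ) :=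
      (ph_cont hX hy).comp (continuous_snd.prodMk continuous_const)
    have c2 : Continuous (fun p : ℝ × ℝ => 𝓕 φ (Pt a e₁ e₂ p.1 ξ)) :=
      (𝓕 φ).continuous.comp ((Pt_cont a e₁ e₂).comp (continuous_fst.prodMk continuous_const))
    exact (c1.mul c2).continuousOn

end

/-! ### The values on the curve -/

lemma X_int {L : ℝ} {X : ℝ → ℝ} (hX : ∀ s, X (s + L) = X s + 2 * Real.pi) (s : ℝ) (n : ℤ) :
    X (s + n * L) = X s + 2 * Real.pi * n := by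
  induction n using Int.induction_on with
  | zero => simp
  | succ k ih =>
    have h := hX (s + (k : ℤ) * L)
    have e : s + (((k : ℤ) + 1 : ℤ) : ℝ) * L = s + ((k : ℤ) : ℝ) * L + L := by push_cast; ring
    rw [e, h, ih]
    push_cast
    ring
  | pred k ih =>
    have h := hX (s + ((-(k : ℤ) - 1 : ℤ) : ℝ) * L)
    have e : s + ((-(k : ℤ) - 1 : ℤ) : ℝ) * L + L = s + ((-(k : ℤ) : ℤ) : ℝ) * L := by
      push_cast; ring
    rw [e, ih] at h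
    push_cast at h ⊢
    linarith

lemma y_int {L : ℝ} {y : ℝ → ℝ} (hy : ∀ s, y (s + L) = y s) (s : ℝ) (n : ℤ) :
    y (s + n * L) = y s := by
  have h : Function.Periodic y L := hy
  have := h.int_mul n s
  simpa using this

variable {γ : ℝ → Pl} {a L : ℝ} {e₁ e₂ : Pl} {X y : ℝ → ℝ}

/-- the values of `φ` on the translates of the curve are Fourier coefficients -/
lemma phi_curve (hP : S_PTM) (C : Coo γ a L e₁ e₂ X y) (φ : Sc) (s : ℝ) (n : ℤ) :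
    (a : ℂ) * φ (γ (s + n * L)) = ∫ θ in Ioo (0 : ℝ) 1, Complex.exp (2 * Real.pi * Complex.I * n * θ) *
      (Complex.exp (Complex.I * ((θ * X s : ℝ) : ℂ)) * Zk a e₁ e₂ X y φ θ s) := by
  have ha := C.a_pos
  obtain ⟨hm, hmap, -⟩ := hP a e₁ e₂ C.a_pos C.norm1 C.norm2 C.orth
  set x : Pl := γ (s + n * L) with hx
  set G : Pl → ℂ := fun v => Real.fourierChar ⟪v, x⟫_ℝ • 𝓕 φ v with hG
  have hinv : φ x = ∫ v, G v := by
    have h1 : 𝓕⁻ (𝓕 φ) = φ := FourierTransform.fourierInv_fourier_eq φ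
    conv_lhs => rw [← h1, SchwartzMap.fourierInv_coe, Real.fourierInv_eq]
  have hGc : Continuous G := by
    have h1 : Continuous (fun v : Pl => (Real.fourierChar ⟪v, x⟫_ℝ : Circle)) := by fun_prop
    exact h1.smul (𝓕 φ).continuous
  have hGi : Integrable G := by
    have h1 : Integrable (fun v => 𝓕 φ v) := (𝓕 φ).integrable
    refine h1.norm.mono' hGc.aestronglyMeasurable (Eventually.of_forall fun v => ?_)
    rw [hG]
    simp only [Circle.norm_smul]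
    exact le_rfl
  have h2 : (a : ℂ) * ∫ v, G v = ∫ p, G (Pt a e₁ e₂ p.1 p.2) ∂(m01.prod mZR) := by
    have h3 : ∫ v, G v ∂(ENNReal.ofReal a • (volume : Measure Pl)) = (a : ℂ) * ∫ v, G v := by
      rw [integral_smul_measure, ENNReal.toReal_ofReal ha.le, Complex.real_smul]
    rw [← h3, ← hmap, integral_map hm.aemeasurable hGc.aestronglyMeasurable]
  have hint : Integrable (fun p : ℝ × (ℤ × ℝ) => G (Pt a e₁ e₂ p.1 p.2)) (m01.prod mZR) := by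
    have h3 : Integrable G (Measure.map (fun p : ℝ × (ℤ × ℝ) => Pt a e₁ e₂ p.1 p.2) (m01.prod mZR)) := by
      rw [hmap]
      exact hGi.smul_measure ENNReal.ofReal_ne_top
    exact (integrable_map_measure hGc.aestronglyMeasurable hm.aemeasurable).1 h3
  rw [hinv, h2, integral_prod _ hint]
  refine integral_congr_ae (Eventually.of_forall fun θ => ?_)
  simp only
  rw [zk_eq, ← integral_const_mul, ← integral_const_mul]
  refine integral_congr_ae (Eventually.of_forall fun ξ => ?_)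
  simp only [hG]
  rw [Circle.smul_def, Real.fourierChar_apply, smul_eq_mul]
  rw [← mul_assoc, ← mul_assoc]
  congr 1
  unfold ph
  rw [← Complex.exp_add, ← Complex.exp_add]
  have h4 : ⟪Pt a e₁ e₂ θ ξ, x⟫_ℝ = ((ξ.1 : ℝ) + θ) / a * (a * (X s + 2 * Real.pi * n) / (2 * Real.pi))
      + ξ.2 * y s := by
    rw [hx, C.eq, X_int C.crv.X_per, y_int C.crv.y_per]
    unfold Pt
    exact inner_comb C.norm1 C.norm2 C.orth _ _ _ _
  have h5 : 2 * Real.pi * ⟪Pt a e₁ e₂ θ ξ, x⟫_ℝ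
      = ((n * ξ.1 : ℤ) : ℝ) * (2 * Real.pi) + (2 * Real.pi * n * θ + θ * X s
        + ((ξ.1 : ℝ) * X s + 2 * Real.pi * ξ.2 * y s)) := by
    rw [h4]
    have := Real.pi_ne_zero
    have := ha.ne'
    push_cast
    field_simp
    ring
  rw [h5]
  have h6 : (((((n * ξ.1 : ℤ) : ℝ) * (2 * Real.pi) + (2 * Real.pi * n * θ + θ * X s
        + ((ξ.1 : ℝ) * X s + 2 * Real.pi * ξ.2 * y s)) : ℝ)) : ℂ) * Complex.I
      = ((n * ξ.1 : ℤ) : ℂ) * (2 * Real.pi * Complex.I) + (2 * Real.pi * Complex.I * n * θ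
        + Complex.I * ((θ * X s : ℝ) : ℂ)
        + Complex.I * (((ξ.1 : ℝ) * X s + 2 * Real.pi * ξ.2 * y s : ℝ) : ℂ)) := by
    push_cast
    ring
  rw [h6, Complex.exp_add, Complex.exp_int_mul_two_pi_mul_I, one_mul]

/-- Parseval for fixed `s` -/
lemma pars_s (hP : S_PTM) (C : Coo γ a L e₁ e₂ X y) (φ ψ : Sc) (s : ℝ) :
    HasSum (fun n : ℤ => (a : ℂ) ^ 2 * (conj (φ (γ (s + n * L))) * ψ (γ (s + n * L))))
      (∫ θ in Ioo (0 : ℝ) 1, conj (Zk a e₁ e₂ X y φ θ s) * Zk a e₁ e₂ X y ψ θ s) := by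
  have hML : ∀ φ : Sc, MemLp (fun θ : ℝ => Complex.exp (Complex.I * ((θ * X s : ℝ) : ℂ)) *
      Zk a e₁ e₂ X y φ θ s) 2 (volume.restrict (Ioc (0 : ℝ) 1)) := by
    intro φ
    have hc : ContinuousOn (fun θ : ℝ => Complex.exp (Complex.I * ((θ * X s : ℝ) : ℂ)) *
        Zk a e₁ e₂ X y φ θ s) (Icc (0 : ℝ) 1) := by
      have h1 := zk_cont C.a_pos C.norm1 C.norm2 C.orth C.crv.X_cont C.crv.y_cont φ
      have h2 : ContinuousOn (fun θ : ℝ => Zk a e₁ e₂ X y φ θ s) (Icc (0 : ℝ) 1) :=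
        h1.comp (f := fun θ : ℝ => (θ, s)) (by fun_prop) (fun θ hθ => ⟨hθ, mem_univ _⟩)
      exact (Continuous.continuousOn (by fun_prop)).mul h2
    have h3 := (hc.mono Ioc_subset_Icc_self).aestronglyMeasurable (μ := volume) measurableSet_Ioc
    obtain ⟨B, hB0, hB⟩ := zk_bd C.a_pos C.norm1 C.norm2 C.orth X y φ
    refine MemLp.of_bound h3 B ?_
    filter_upwards [ae_restrict_mem measurableSet_Ioc] with θ hθ
    rw [norm_mul, mul_comm Complex.I, Complex.norm_exp_ofReal_mul_I, one_mul]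
    exact hB θ (Ioc_subset_Icc_self hθ) s
  have key := parseval (hML φ) (hML ψ)
  simp only [← phi_curve hP C] at key
  have e1 : ∀ n : ℤ, conj ((a : ℂ) * φ (γ (s + n * L))) * ((a : ℂ) * ψ (γ (s + n * L)))
      = (a : ℂ) ^ 2 * (conj (φ (γ (s + n * L))) * ψ (γ (s + n * L))) := by
    intro n
    rw [map_mul, Complex.conj_ofReal]
    ring
  simp only [e1] at key
  have e2 : ∫ θ in Ioo (0 : ℝ) 1, conj (Complex.exp (Complex.I * ((θ * X s : ℝ) : ℂ)) *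
        Zk a e₁ e₂ X y φ θ s) * (Complex.exp (Complex.I * ((θ * X s : ℝ) : ℂ)) *
        Zk a e₁ e₂ X y ψ θ s)
      = ∫ θ in Ioo (0 : ℝ) 1, conj (Zk a e₁ e₂ X y φ θ s) * Zk a e₁ e₂ X y ψ θ s := by
    refine integral_congr_ae (Eventually.of_forall fun θ => ?_)
    simp only
    have h3 : conj (Complex.exp (Complex.I * ((θ * X s : ℝ) : ℂ))) *
        Complex.exp (Complex.I * ((θ * X s : ℝ) : ℂ)) = 1 := by
      rw [← Complex.exp_conj, map_mul, Complex.conj_I, Complex.conj_ofReal, ← Complex.exp_add]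
      simp
    rw [map_mul]
    linear_combination (conj (Zk a e₁ e₂ X y φ θ s) * Zk a e₁ e₂ X y ψ θ s) * h3
  rw [e2] at key
  exact key

/-! ### Sum over the periods -/

lemma period_sum {f : ℝ → ℂ} (hf : Integrable f) {L : ℝ} (hL : 0 < L) :
    HasSum (fun n : ℤ => ∫ s in Ioc (0 : ℝ) L, f (s + n * L)) (∫ s, f s) := by
  have h1 := hasSum_integral_iUnion (μ := (volume : Measure ℝ)) (f := f)
    (s := fun n : ℤ => Ioc ((0 : ℝ) + n • L) (0 + (n + 1) • L)) (fun i => measurableSet_Ioc)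
    (pairwise_disjoint_Ioc_add_zsmul 0 L) hf.integrableOn
  rw [iUnion_Ioc_add_zsmul hL 0, setIntegral_univ] at h1
  have e : (fun n : ℤ => ∫ s in Ioc (0 : ℝ) L, f (s + n * L))
      = fun n : ℤ => ∫ x in Ioc ((0 : ℝ) + n • L) (0 + (n + 1) • L), f x := by
    funext n
    rw [← intervalIntegral.integral_of_le hL.le, intervalIntegral.integral_comp_add_right (f := f),
      ← intervalIntegral.integral_of_le (by
        rw [add_smul, one_smul]; linarith)]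
    congr 1
    · simp
    · simp only [zsmul_eq_mul]
      push_cast
      ring
  rw [e]
  exact h1

/-- decay along the curve -/
lemma curve_decay (C : Coo γ a L e₁ e₂ X y) : ∃ K : ℝ, 0 < K ∧ ∀ s, 1 + |s| ≤ K * (1 + ‖γ s‖) := by
  have ha := C.a_pos
  have hL := C.crv.L_pos
  have hp : Function.Periodic (fun s => X s - 2 * Real.pi / L * s) L := by
    intro s
    show X (s + L) - 2 * Real.pi / L * (s + L) = X s - 2 * Real.pi / L * s
    rw [C.crv.X_per]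
    field_simp
    ring
  have hc : Continuous (fun s => X s - 2 * Real.pi / L * s) := C.crv.X_cont.sub (by fun_prop)
  obtain ⟨P, hP⟩ := (hp.isBounded_of_continuous hL.ne' hc).exists_norm_le
  have hP' : ∀ s, |X s - 2 * Real.pi / L * s| ≤ P := fun s => hP _ ⟨s, rfl⟩
  have hP0 : 0 ≤ P := (abs_nonneg _).trans (hP' 0)
  refine ⟨1 + L / a + L * P / (2 * Real.pi), by positivity, fun s => ?_⟩
  have h1 : |a * X s / (2 * Real.pi)| ≤ ‖γ s‖ := by
    apply abs_le_of_sq_le_sq _ (norm_nonneg _)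
    rw [C.eq, norm_comb C.norm1 C.norm2 C.orth]
    nlinarith [sq_nonneg (y s)]
  have h2 : 2 * Real.pi / L * |s| ≤ |X s| + P := by
    have h3 : |2 * Real.pi / L * s| ≤ |X s| + |X s - 2 * Real.pi / L * s| := by
      have := abs_sub (X s) (X s - 2 * Real.pi / L * s)
      simpa using this
    rw [abs_mul, abs_of_pos (by positivity)] at h3
    linarith [hP' s]
  have h4 : |X s| ≤ 2 * Real.pi / a * ‖γ s‖ := by
    rw [abs_div, abs_mul, abs_of_pos ha, abs_of_pos (by positivity : 0 < 2 * Real.pi),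
      div_le_iff₀ (by positivity)] at h1
    rw [div_mul_eq_mul_div, le_div_iff₀ ha]
    linarith
  have h5 : |s| ≤ L / a * ‖γ s‖ + L * P / (2 * Real.pi) := by
    have h6 : 2 * Real.pi / L * |s| ≤ 2 * Real.pi / a * ‖γ s‖ + P := by linarith
    have h7 : |s| = L / (2 * Real.pi) * (2 * Real.pi / L * |s|) := by
      field_simp
    rw [h7]
    calc L / (2 * Real.pi) * (2 * Real.pi / L * |s|)
        ≤ L / (2 * Real.pi) * (2 * Real.pi / a * ‖γ s‖ + P) := by gcongr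
      _ = _ := by field_simp
  have h8 : 0 ≤ L / a := by positivity
  have h9 : 0 ≤ L * P / (2 * Real.pi) := by positivity
  have h10 := norm_nonneg (γ s)
  nlinarith [mul_nonneg h9 h10, mul_nonneg h8 h10]

lemma γ_cont (C : Coo γ a L e₁ e₂ X y) : Continuous γ := by
  have e : γ = fun s => (a * X s / (2 * Real.pi)) • e₁ + y s • e₂ := funext C.eq
  rw [e]
  have h1 := C.crv.X_cont
  have h2 := C.crv.y_cont
  fun_prop

lemma trace_int (C : Coo γ a L e₁ e₂ X y) (φ ψ : Sc) :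
    Integrable (fun s => conj (φ (γ s)) * ψ (γ s)) := by
  obtain ⟨K, hK0, hK⟩ := curve_decay C
  obtain ⟨B, hB0, hB⟩ := schwartz_bd φ
  obtain ⟨B', hB0', hB'⟩ := schwartz_bd ψ
  have hγ := γ_cont C
  have hc : Continuous (fun s => conj (φ (γ s)) * ψ (γ s)) :=
    (Complex.continuous_conj.comp (φ.continuous.comp hγ)).mul (ψ.continuous.comp hγ)
  refine (integrable_inv_one_add_sq.const_mul (B * B' * K ^ 2)).mono' hc.aestronglyMeasurable
    (Eventually.of_forall fun s => ?_)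
  rw [norm_mul, RCLike.norm_conj]
  set r := ‖γ s‖ with hr
  have hr0 : 0 ≤ r := norm_nonneg _
  have h1 := hB (γ s)
  have h2 := hB' (γ s)
  have h3 : ‖ψ (γ s)‖ ≤ B' := by
    have h4 : 1 ≤ (1 + r) ^ 4 := one_le_pow₀ (by linarith)
    nlinarith [norm_nonneg (ψ (γ s))]
  have h4 : (1 + r) ^ 2 * ‖φ (γ s)‖ ≤ B := by
    have h5 : (1 + r) ^ 2 ≤ (1 + r) ^ 4 := pow_le_pow_right₀ (by linarith) (by norm_num)
    have h6 := norm_nonneg (φ (γ s))
    nlinarith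
  have h5 : 1 + s ^ 2 ≤ K ^ 2 * (1 + r) ^ 2 := by
    have h6 : (1 + |s|) ^ 2 ≤ (K * (1 + r)) ^ 2 := pow_le_pow_left₀ (by positivity) (hK s) 2
    have h7 := sq_abs s
    nlinarith [abs_nonneg s]
  rw [← div_eq_mul_inv, le_div_iff₀ (by positivity)]
  have h6 := norm_nonneg (φ (γ s))
  have h7 := norm_nonneg (ψ (γ s))
  calc ‖φ (γ s)‖ * ‖ψ (γ s)‖ * (1 + s ^ 2)
      ≤ ‖φ (γ s)‖ * B' * (K ^ 2 * (1 + r) ^ 2) := by gcongr
    _ = ((1 + r) ^ 2 * ‖φ (γ s)‖) * B' * K ^ 2 := by ring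
    _ ≤ B * B' * K ^ 2 := by gcongr

end Pool.Agent.H773.LK.Zak

namespace Pool.Agent.H773.LK

open MeasureTheory Filter Topology Set Zak
open scoped ENNReal NNReal ComplexConjugate InnerProductSpace SchwartzMap FourierTransform

theorem t_ZAK (hP : S_PTM) : S_ZAK := by
  intro γ a L e₁ e₂ X y C
  have ha := C.a_pos
  have hL := C.crv.L_pos
  refine ⟨fun φ => ⟨?_, ?_, ?_⟩, fun φ ψ => ?_⟩
  · intro θ hθ
    exact slice_int ha C.norm1 C.norm2 C.orth (𝓕 φ) (Ioo_subset_Icc_self hθ)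
  · obtain ⟨B, _, hB⟩ := zk_bd ha C.norm1 C.norm2 C.orth X y φ
    exact ⟨B, fun θ hθ s => hB θ (Ioo_subset_Icc_self hθ) s⟩
  · exact (zk_cont ha C.norm1 C.norm2 C.orth C.crv.X_cont C.crv.y_cont φ).mono
      (prod_mono Ioo_subset_Icc_self le_rfl)
  · have hi := trace_int C φ ψ
    have h1 := period_sum hi hL
    have h2 := period_sum (f := fun s => ((‖conj (φ (γ s)) * ψ (γ s)‖ : ℝ) : ℂ)) hi.norm.ofReal hL
    have hFi : ∀ n : ℤ, Integrable (fun s => conj (φ (γ (s + n * L))) * ψ (γ (s + n * L)))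
        (volume.restrict (Ioc (0 : ℝ) L)) := fun n =>
      (hi.comp_add_right (n * L)).integrableOn
    have hFs : Summable (fun n : ℤ => ∫ s in Ioc (0 : ℝ) L,
        ‖conj (φ (γ (s + n * L))) * ψ (γ (s + n * L))‖) := by
      have h3 := h2.summable
      simp only [integral_complex_ofReal] at h3
      exact Complex.summable_ofReal.1 h3
    have h3 := hasSum_integral_of_summable_integral_norm hFi hFs
    have h4 : traceForm γ φ ψ = ∫ s in Ioc (0 : ℝ) L,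
        ∑' n : ℤ, conj (φ (γ (s + n * L))) * ψ (γ (s + n * L)) := h1.unique h3
    have h5 : ∀ s, (a : ℂ) ^ 2 * ∑' n : ℤ, conj (φ (γ (s + n * L))) * ψ (γ (s + n * L))
        = ∫ θ in Ioo (0 : ℝ) 1, conj (Zk a e₁ e₂ X y φ θ s) * Zk a e₁ e₂ X y ψ θ s := by
      intro s
      rw [← tsum_mul_left]
      exact (pars_s hP C φ ψ s).tsum_eq
    rw [h4, ← integral_const_mul]
    simp only [h5]
    symm
    apply integral_integral_swap
    -- integrability on the product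
    obtain ⟨B, hB0, hB⟩ := zk_bd ha C.norm1 C.norm2 C.orth X y φ
    obtain ⟨B', hB0', hB'⟩ := zk_bd ha C.norm1 C.norm2 C.orth X y ψ
    have c1 := (zk_cont ha C.norm1 C.norm2 C.orth C.crv.X_cont C.crv.y_cont φ).mono
      (show Ioo (0 : ℝ) 1 ×ˢ Ioc (0 : ℝ) L ⊆ _ from prod_mono Ioo_subset_Icc_self (subset_univ _))
    have c2 := (zk_cont ha C.norm1 C.norm2 C.orth C.crv.X_cont C.crv.y_cont ψ).mono
      (show Ioo (0 : ℝ) 1 ×ˢ Ioc (0 : ℝ) L ⊆ _ from prod_mono Ioo_subset_Icc_self (subset_univ _))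
    have c3 : ContinuousOn (Function.uncurry fun θ s =>
        conj (Zk a e₁ e₂ X y φ θ s) * Zk a e₁ e₂ X y ψ θ s) (Ioo (0 : ℝ) 1 ×ˢ Ioc (0 : ℝ) L) :=
      (Complex.continuous_conj.comp_continuousOn c1).mul c2
    have hms : MeasurableSet (Ioo (0 : ℝ) 1 ×ˢ Ioc (0 : ℝ) L) :=
      measurableSet_Ioo.prod measurableSet_Ioc
    have c4 := c3.aestronglyMeasurable (μ := (volume : Measure ℝ).prod volume) hms
    rw [← Measure.prod_restrict] at c4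
    refine Integrable.of_bound c4 (B * B') ?_
    have h6 : ∀ᵐ p ∂((volume.restrict (Ioo (0 : ℝ) 1)).prod (volume.restrict (Ioc (0 : ℝ) L))),
        p ∈ Ioo (0 : ℝ) 1 ×ˢ Ioc (0 : ℝ) L := by
      rw [Measure.prod_restrict]
      exact ae_restrict_mem hms
    filter_upwards [h6] with p hp
    show ‖conj (Zk a e₁ e₂ X y φ p.1 p.2) * Zk a e₁ e₂ X y ψ p.1 p.2‖ ≤ B * B'
    rw [norm_mul, RCLike.norm_conj]
    exact mul_le_mul (hB _ (Ioo_subset_Icc_self hp.1) _) (hB' _ (Ioo_subset_Icc_self hp.1) _)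
      (norm_nonneg _) hB0

end Pool.Agent.H773.LK
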